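import Mathlib
import Pool.Agent.Helper73.F2.St

set_option autoImplicit false

namespace Pool.Agent.Helper39.F2

open _root_.F2 Finset

/-- XCH: exchange in a minimal good set -/
theorem hXCH : StXCH := by
  intro V κ _ _ _ _ G b X hX x hx hm
  obtain ⟨hG, hmin⟩ := hX
  -- another member in the block of `x`
  obtain ⟨x', hx', hxb⟩ : ∃ x' ∈ X.erase x, b x' = b x := by
    have h1 : 1 < (X.filter (fun z => b z = b x)).card := hm
    obtain ⟨u, hu, v, hv, huv⟩ := one_lt_card.1 h1
    rw [mem_filter] at hu hv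
    by_cases h : u = x
    · exact ⟨v, mem_erase.2 ⟨fun h' => huv (h.trans h'.symm), hv.1⟩, hv.2⟩
    · exact ⟨u, mem_erase.2 ⟨h, hu.1⟩, hu.2⟩
  have hhit : ∀ i, ∃ z ∈ X.erase x, b z = i := by
    intro i
    by_cases hi : i = b x
    · exact ⟨x', hx', hxb.trans hi.symm⟩
    · obtain ⟨z, hz, hzi⟩ := hG.hit i
      refine ⟨z, mem_erase.2 ⟨?_, hz⟩, hzi⟩
      rintro rfl
      exact hi hzi.symm
  obtain ⟨w, hw, hwn⟩ : ∃ w, Cyc G w ∧ ∀ z ∈ X.erase x, ¬ G.Reachable w z := by
    by_contra hcon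
    push Not at hcon
    have hgood : Good G b (X.erase x) :=
      ⟨fun u hu v hv => hG.indep u (mem_of_mem_erase hu) v (mem_of_mem_erase hv), hhit, hcon⟩
    have h1 := hmin _ hgood
    have h2 := card_erase_lt_of_mem hx
    omega
  have hwx : G.Reachable w x := by
    obtain ⟨z, hz, hwz⟩ := hG.cyc w hw
    by_cases h : z = x
    · rwa [h] at hwz
    · exact absurd hwz (hwn z (mem_erase.2 ⟨h, hz⟩))
  have hU : Uniq G X x := by
    refine ⟨fun y hy => hw y (hwx.trans hy), ?_⟩
    intro z hz hxz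
    by_contra h
    exact hwn z (mem_erase.2 ⟨h, hz⟩) (hwx.trans hxz)
  refine ⟨hU, ?_⟩
  intro y hy
  by_cases hyx : y = x
  · subst hyx
    rw [insert_erase hx]
    exact ⟨hG, hmin⟩
  have hyX : y ∉ X := fun h => hyx (hU.2 y h hy)
  have hcard : (insert y (X.erase x)).card = X.card := by
    rw [card_insert_of_notMem (fun h => hyX (mem_of_mem_erase h)), card_erase_of_mem hx]
    have := card_pos.2 ⟨x, hx⟩
    omega
  have hnadj : ∀ v ∈ X.erase x, ¬ G.Adj y v := by
    intro v hv hadj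
    have h1 := hU.2 v (mem_of_mem_erase hv) (hy.trans hadj.reachable)
    exact (mem_erase.1 hv).1 h1
  refine ⟨⟨?_, ?_, ?_⟩, ?_⟩
  · intro u hu v hv
    rw [mem_insert] at hu hv
    rcases hu with rfl | hu
    · rcases hv with rfl | hv
      · exact G.irrefl
      · exact hnadj v hv
    · rcases hv with rfl | hv
      · exact fun h => hnadj u hu h.symm
      · exact hG.indep u (mem_of_mem_erase hu) v (mem_of_mem_erase hv)
  · intro i
    obtain ⟨z, hz, hzi⟩ := hhit i
    exact ⟨z, mem_insert_of_mem hz, hzi⟩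
  · intro w' hw'
    obtain ⟨z, hz, hzr⟩ := hG.cyc w' hw'
    by_cases h : z = x
    · subst h
      exact ⟨y, mem_insert_self _ _, hzr.trans hy⟩
    · exact ⟨z, mem_insert_of_mem (mem_erase.2 ⟨h, hz⟩), hzr⟩
  · intro Y hY
    rw [hcard]
    exact hmin Y hY

end Pool.Agent.Helper39.F2
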